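import Pool.Agent.X265.Sub.Conj

/-!
# Groups with orbits of subexponential growth
-/

set_option autoImplicit false

namespace Pool.Agent.X265.Sub

open Pointwise

universe u v w

theorem finite_pow {G : Type u} [Group G] {S : Set G} (hS : S.Finite) (m : ℕ) : (S ^ m).Finite := by
  induction m with
  | zero => rw [pow_zero]; exact Set.finite_one
  | succ m ih => rw [pow_succ]; exact ih.mul hS

/-- `Γ` has subexponential growth: for every finite subset `S` of `Γ` and every `a > 1` the set of the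
products of `r` elements of `S` has at most `a ^ r` elements if `r` is large -/
def SubexpGrowth (Γ : Type w) [Group Γ] : Prop :=
  ∀ S : Set Γ, S.Finite → ∀ a : ℝ, 1 < a → ∃ r₀ : ℕ, ∀ r : ℕ, r₀ ≤ r → ((S ^ r).ncard : ℝ) ≤ a ^ r

/-- every element of `G` is piecewise given by finitely many elements of `Γ` -/
def Piecewise (Γ : Type w) [Group Γ] (G : Type u) [Group G] (Ω : Type v) [MulAction Γ Ω]
    [MulAction G Ω] : Prop :=
  ∀ g : G, ∃ F : Set Γ, F.Finite ∧ ∀ ξ : Ω, ∃ γ ∈ F, g • ξ = γ • ξ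

theorem subexp_of_piecewise {Γ : Type w} [Group Γ] {G : Type u} [Group G] {Ω : Type v}
    [MulAction Γ Ω] [MulAction G Ω] (hΓ : SubexpGrowth Γ) (h : Piecewise Γ G Ω) :
    SubexpOrbits G Ω := by
  intro S hS a ha
  choose F hF hFg using h
  have hF' : (⋃ g ∈ S, F g).Finite := hS.biUnion fun g _ => hF g
  obtain ⟨r₀, hr⟩ := hΓ _ hF' a ha
  refine ⟨r₀, fun r hr0 ξ => le_trans ?_ (hr r hr0)⟩
  have key : ∀ r : ℕ, ∀ g ∈ S ^ r, ∀ ξ : Ω, ∃ γ ∈ (⋃ g ∈ S, F g) ^ r, g • ξ = γ • ξ := by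
    intro r
    induction r with
    | zero =>
      intro g hg ξ
      rw [pow_zero, Set.mem_one] at hg
      subst hg
      exact ⟨1, by rw [pow_zero]; exact Set.mem_one.2 rfl, by rw [one_smul, one_smul]⟩
    | succ r ih =>
      intro g hg ξ
      rw [pow_succ] at hg
      obtain ⟨g1, hg1, g2, hg2, rfl⟩ := Set.mem_mul.1 hg
      obtain ⟨γ2, hγ2, e2⟩ := hFg g2 ξ
      obtain ⟨γ1, hγ1, e1⟩ := ih g1 hg1 (g2 • ξ)
      refine ⟨γ1 * γ2, ?_, ?_⟩
      · rw [pow_succ]
        exact Set.mul_mem_mul hγ1 (Set.mem_biUnion hg2 hγ2)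
      · rw [mul_smul, e1, e2, mul_smul]
  have hsub : orb S r ξ ⊆ (fun γ => γ • ξ) '' ((⋃ g ∈ S, F g) ^ r) := by
    rintro _ ⟨g, hg, rfl⟩
    obtain ⟨γ, hγ, e⟩ := key r g hg ξ
    exact ⟨γ, hγ, e.symm⟩
  have h1 := Set.ncard_le_ncard hsub ((finite_pow hF' r).image _)
  have h2 := Set.ncard_image_le (f := fun γ => γ • ξ) (finite_pow hF' r)
  exact_mod_cast h1.trans h2

/-- the balls of the metric space `Ω` are finite and grow subexponentially, uniformly in the centre -/
def SubexpBalls (Ω : Type v) [PseudoMetricSpace Ω] : Prop :=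
  ∀ a : ℝ, 1 < a → ∃ r₀ : ℕ, ∀ r : ℕ, r₀ ≤ r → ∀ ξ : Ω,
    (Metric.closedBall ξ r).Finite ∧ ((Metric.closedBall ξ r).ncard : ℝ) ≤ a ^ r

theorem subexp_of_bounded {G : Type u} [Group G] {Ω : Type v} [PseudoMetricSpace Ω] [MulAction G Ω]
    (hΩ : SubexpBalls Ω) (h : ∀ g : G, ∃ c : ℝ, ∀ ξ : Ω, dist ξ (g • ξ) ≤ c) : SubexpOrbits G Ω := by
  intro S hS a ha
  choose c hc using h
  obtain ⟨m, hm0, hm⟩ : ∃ m : ℕ, 0 < m ∧ ∀ g ∈ S, c g ≤ m := by
    obtain ⟨B, hB⟩ := (hS.image c).bddAbove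
    obtain ⟨m, hm⟩ := exists_nat_ge B
    refine ⟨m + 1, Nat.succ_pos _, fun g hg => ?_⟩
    have := hB (Set.mem_image_of_mem c hg)
    push_cast
    linarith
  have key : ∀ r : ℕ, ∀ g ∈ S ^ r, ∀ ξ : Ω, dist ξ (g • ξ) ≤ m * r := by
    intro r
    induction r with
    | zero =>
      intro g hg ξ
      rw [pow_zero, Set.mem_one] at hg
      subst hg
      rw [one_smul, dist_self]
      simp
    | succ r ih =>
      intro g hg ξ
      rw [pow_succ] at hg
      obtain ⟨g1, hg1, g2, hg2, rfl⟩ := Set.mem_mul.1 hg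
      have h1 := ih g1 hg1 (g2 • ξ)
      have h2 := (hc g2 ξ).trans (hm g2 hg2)
      rw [mul_smul]
      have h3 := dist_triangle ξ (g2 • ξ) (g1 • g2 • ξ)
      push_cast
      linarith
  obtain ⟨r₀, hr⟩ := hΩ (a ^ ((m : ℝ)⁻¹)) (Real.one_lt_rpow ha (by positivity))
  refine ⟨r₀, fun r hr0 ξ => ?_⟩
  obtain ⟨h1, h2⟩ := hr (m * r) (hr0.trans (Nat.le_mul_of_pos_left r hm0)) ξ
  have hsub : orb S r ξ ⊆ Metric.closedBall ξ ((m * r : ℕ) : ℝ) := by
    rintro _ ⟨g, hg, rfl⟩
    rw [Metric.mem_closedBall, dist_comm]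
    push_cast
    exact key r g hg ξ
  have h3 := Set.ncard_le_ncard hsub h1
  have h4 : (a ^ ((m : ℝ)⁻¹)) ^ (m * r) = a ^ r := by
    rw [pow_mul, ← Real.rpow_natCast (a ^ ((m : ℝ)⁻¹)) m, ← Real.rpow_mul (by linarith),
      inv_mul_cancel₀ (by positivity), Real.rpow_one]
  rw [h4] at h2
  refine le_trans ?_ h2
  exact_mod_cast h3

/-- Contracting actions on the words over the alphabet `X`: `G` preserves the lengths of the words, and
there is a finite subset `N` of `G` such that every `g` in `G` acts below all vertices `v` of sufficiently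
large level like elements of `N`: `g (v w) = (g v) (b w)` with `b ∈ N`. -/
def Contracting (X : Type v) (G : Type u) [Group G] [MulAction G (List X)] : Prop :=
  (∀ (g : G) (v : List X), (g • v).length = v.length) ∧
  ∃ N : Set G, N.Finite ∧ ∀ g : G, ∃ n : ℕ, ∀ v : List X, n ≤ v.length →
    ∃ b ∈ N, ∀ w : List X, g • (v ++ w) = (g • v) ++ (b • w)

/-- polynomials grow subexponentially -/
theorem poly_le (C d : ℕ) {a : ℝ} (ha : 1 < a) :
    ∃ r₀ : ℕ, ∀ r : ℕ, r₀ ≤ r → (C : ℝ) * (r : ℝ) ^ d ≤ a ^ r := by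
  have h := tendsto_pow_const_div_const_pow_of_one_lt d ha
  have h2 := h.const_mul (C : ℝ)
  rw [mul_zero] at h2
  obtain ⟨r₀, hr⟩ := (h2.eventually (eventually_le_nhds (show (0 : ℝ) < 1 by norm_num))).exists_forall_of_atTop
  refine ⟨r₀, fun r hr0 => ?_⟩
  have h3 := hr r hr0
  have h4 : (0 : ℝ) < a ^ r := by positivity
  rw [← mul_div_assoc, div_le_one h4] at h3
  exact h3

theorem ncard_words {X : Type v} [Finite X] (n : ℕ) :
    {v : List X | v.length = n}.Finite ∧ {v : List X | v.length = n}.ncard ≤ Nat.card X ^ n := by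
  classical
  have : Fintype X := Fintype.ofFinite X
  have e : {v : List X | v.length = n} ≃ (Fin n → X) := Equiv.vectorEquivFin X n
  have hfin : Finite {v : List X | v.length = n} := Finite.of_equiv _ e.symm
  refine ⟨Set.toFinite _, ?_⟩
  rw [← Nat.card_coe_set_eq, Nat.card_congr e, Nat.card_fun, Nat.card_eq_fintype_card (α := Fin n),
    Fintype.card_fin]

theorem subexp_of_contracting {X : Type v} [Finite X] {G : Type u} [Group G] [MulAction G (List X)]
    (h : Contracting X G) : SubexpOrbits G (List X) := by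
  classical
  obtain ⟨hlen, N, hN, hcon⟩ := h
  intro S hS a ha
  -- a finite set containing `S` and `N`
  obtain ⟨T, hT, hST, hNT, h1T⟩ : ∃ T : Set G, T.Finite ∧ S ⊆ T ∧ N ⊆ T ∧ (1 : G) ∈ T :=
    ⟨insert 1 (S ∪ N), (hS.union hN).insert 1, fun x hx => Or.inr (Or.inl hx),
      fun x hx => Or.inr (Or.inr hx), Or.inl rfl⟩
  choose lev hlev using hcon
  obtain ⟨k, hk⟩ : ∃ k : ℕ, ∀ g ∈ T ^ 2, lev g ≤ k := by
    obtain ⟨k, hk⟩ := ((finite_pow hT 2).image lev).bddAbove
    exact ⟨k, fun g hg => hk (Set.mem_image_of_mem lev hg)⟩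
  have hpair : ∀ g ∈ T ^ 2, ∀ v : List X, v.length = k →
      ∃ b ∈ T, ∀ w : List X, g • (v ++ w) = (g • v) ++ (b • w) := by
    intro g hg v hv
    obtain ⟨b, hb, e⟩ := hlev g v (by rw [hv]; exact hk g hg)
    exact ⟨b, hNT hb, e⟩
  -- halving
  have hhalf : ∀ m : ℕ, ∀ g ∈ T ^ (2 * m), ∀ v : List X, v.length = k →
      ∃ b ∈ T ^ m, ∀ w : List X, g • (v ++ w) = (g • v) ++ (b • w) := by
    intro m
    induction m with
    | zero =>
      intro g hg v hv
      rw [mul_zero, pow_zero, Set.mem_one] at hg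
      subst hg
      exact ⟨1, by rw [pow_zero]; exact Set.mem_one.2 rfl, fun w => by rw [one_smul, one_smul, one_smul]⟩
    | succ m ih =>
      intro g hg v hv
      rw [Nat.mul_succ, pow_add] at hg
      obtain ⟨g1, hg1, g2, hg2, rfl⟩ := Set.mem_mul.1 hg
      obtain ⟨b2, hb2, e2⟩ := hpair g2 hg2 v hv
      obtain ⟨b1, hb1, e1⟩ := ih g1 hg1 (g2 • v) (by rw [hlen, hv])
      refine ⟨b1 * b2, ?_, fun w => ?_⟩
      · rw [pow_succ]
        exact Set.mul_mem_mul hb1 hb2
      · rw [mul_smul, e2, e1, mul_smul, mul_smul]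
  have hsec : ∀ j : ℕ, ∀ g ∈ T ^ (2 ^ j), ∀ v : List X, v.length = j * k →
      ∃ b ∈ T, ∀ w : List X, g • (v ++ w) = (g • v) ++ (b • w) := by
    intro j
    induction j with
    | zero =>
      intro g hg v hv
      rw [pow_zero, pow_one] at hg
      rw [zero_mul, List.length_eq_zero_iff] at hv
      subst hv
      have h0 : g • ([] : List X) = [] := by
        rw [← List.length_eq_zero_iff, hlen]
        rfl
      exact ⟨g, hg, fun w => by rw [h0]; rfl⟩
    | succ j ih =>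
      intro g hg v hv
      have e : (j + 1) * k = k + j * k := by ring
      have hv1 : (v.take k).length = k := by
        rw [List.length_take, hv, e]
        omega
      have hv2 : (v.drop k).length = j * k := by
        rw [List.length_drop, hv, e]
        omega
      rw [pow_succ'] at hg
      obtain ⟨b1, hb1, e1⟩ := hhalf _ g hg (v.take k) hv1
      obtain ⟨b2, hb2, e2⟩ := ih b1 hb1 (v.drop k) hv2
      refine ⟨b2, hb2, fun w => ?_⟩
      have h3 : g • v = (g • v.take k) ++ (b1 • v.drop k) := by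
        rw [← e1, List.take_append_drop]
      rw [h3, List.append_assoc, ← e2, ← e1, ← List.append_assoc, List.take_append_drop]
  -- counting
  set q := Nat.card X with hq
  have hcount : ∀ j : ℕ, ∀ ξ : List X, (orb T (2 ^ j) ξ).ncard ≤ (q + 1) ^ (j * k) * T.ncard := by
    intro j ξ
    have hTpos : 1 ≤ T.ncard := (Set.ncard_pos hT).2 ⟨1, h1T⟩
    rcases lt_or_ge ξ.length (j * k) with hlt | hge
    · obtain ⟨hf, hc⟩ := ncard_words (X := X) ξ.length
      have hsub : orb T (2 ^ j) ξ ⊆ {v : List X | v.length = ξ.length} := by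
        rintro _ ⟨g, _, rfl⟩
        exact hlen g ξ
      calc (orb T (2 ^ j) ξ).ncard ≤ _ := Set.ncard_le_ncard hsub hf
        _ ≤ q ^ ξ.length := hc
        _ ≤ (q + 1) ^ ξ.length := Nat.pow_le_pow_left (Nat.le_succ q) _
        _ ≤ (q + 1) ^ (j * k) := Nat.pow_le_pow_right (Nat.succ_pos _) hlt.le
        _ ≤ (q + 1) ^ (j * k) * T.ncard := Nat.le_mul_of_pos_right _ hTpos
    · obtain ⟨hf, hc⟩ := ncard_words (X := X) (j * k)
      have hsub : orb T (2 ^ j) ξ ⊆ Set.image2 (fun (v : List X) (b : G) => v ++ (b • ξ.drop (j * k)))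
          {v : List X | v.length = j * k} T := by
        rintro _ ⟨g, hg, rfl⟩
        have h1 : (ξ.take (j * k)).length = j * k := by
          rw [List.length_take]
          omega
        obtain ⟨b, hb, e⟩ := hsec j g hg _ h1
        refine ⟨g • ξ.take (j * k), ?_, b, hb, ?_⟩
        · rw [Set.mem_setOf_eq, hlen, h1]
        · change (g • ξ.take (j * k)) ++ (b • ξ.drop (j * k)) = g • ξ
          rw [← e, List.take_append_drop]
      calc (orb T (2 ^ j) ξ).ncard ≤ _ := Set.ncard_le_ncard hsub (hf.image2 _ hT)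
        _ ≤ {v : List X | v.length = j * k}.ncard * T.ncard := by
          rw [← Set.image_prod]
          refine (Set.ncard_image_le (hf.prod hT)).trans ?_
          rw [Set.ncard_prod]
        _ ≤ q ^ (j * k) * T.ncard := Nat.mul_le_mul_right _ hc
        _ ≤ (q + 1) ^ (j * k) * T.ncard :=
          Nat.mul_le_mul_right _ (Nat.pow_le_pow_left (Nat.le_succ q) _)
  obtain ⟨d, hd⟩ : ∃ d : ℕ, (q + 1) ^ k ≤ 2 ^ d := ⟨(q + 1) ^ k, Nat.lt_two_pow_self.le⟩
  obtain ⟨r₀, hr⟩ := poly_le (2 ^ d * T.ncard) d ha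
  refine ⟨r₀ + 1, fun r hr0 ξ => le_trans ?_ (hr r (by omega))⟩
  -- choose `j`
  obtain ⟨j, hj1, hj2⟩ : ∃ j : ℕ, r ≤ 2 ^ j ∧ 2 ^ j ≤ 2 * r := by
    refine ⟨Nat.clog 2 r, Nat.le_pow_clog (by norm_num) r, ?_⟩
    rcases Nat.lt_or_ge 1 r with h1 | h1
    · have h2 := Nat.pow_pred_clog_lt_self (b := 2) (by norm_num) h1
      have h3 : 0 < Nat.clog 2 r := Nat.clog_pos (by norm_num) h1
      obtain ⟨i, hi⟩ : ∃ i, Nat.clog 2 r = i + 1 := ⟨Nat.clog 2 r - 1, by omega⟩
      rw [hi] at h2 ⊢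
      rw [Nat.pred_succ] at h2
      rw [pow_succ]
      omega
    · have : r = 1 := by omega
      subst this
      rw [Nat.clog_one_right]
      norm_num
  have hmono : orb S r ξ ⊆ orb T (2 ^ j) ξ := by
    rintro _ ⟨g, hg, rfl⟩
    exact ⟨g, pow_subset h1T hj1 (Set.pow_subset_pow_left hST hg), rfl⟩
  have hfin : (orb T (2 ^ j) ξ).Finite := (finite_pow hT (2 ^ j)).image _
  have hc1 := (Set.ncard_le_ncard hmono hfin).trans (hcount j ξ)
  have hc2 : (q + 1) ^ (j * k) ≤ 2 ^ d * r ^ d := by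
    calc (q + 1) ^ (j * k) = ((q + 1) ^ k) ^ j := by rw [mul_comm, pow_mul]
      _ ≤ (2 ^ d) ^ j := Nat.pow_le_pow_left hd j
      _ = (2 ^ j) ^ d := by rw [← pow_mul, ← pow_mul, mul_comm]
      _ ≤ (2 * r) ^ d := Nat.pow_le_pow_left hj2 d
      _ = 2 ^ d * r ^ d := mul_pow _ _ _
  have hc3 : (orb S r ξ).ncard ≤ 2 ^ d * T.ncard * r ^ d := by
    calc _ ≤ _ := hc1
      _ ≤ 2 ^ d * r ^ d * T.ncard := Nat.mul_le_mul_right _ hc2
      _ = _ := by ring
  exact_mod_cast hc3

end Pool.Agent.X265.Sub
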