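import Pool.Agent.X265.Sub.Grow
import Pool.Agent.H26R2.Bass.Main

/-!
# The Bass trace conjecture for groups with orbits of subexponential growth
-/

set_option autoImplicit false

namespace Pool.Agent.X265.Sub

open Pool.Agent.H26R2.Bass (tau tau_eq exists_local tf_zero_of_good tf_zero_of_finite Good ind)
open Pool.Agent.H23R2.Cyc (tf)

universe u v w

/-- elements which are not conjugate to their proper powers -/
theorem good_of_not_conj {G : Type u} [Group G] {H : Subgroup G} (h : H)
    (hc : ∀ n : ℕ, 2 ≤ n → ¬ IsConj (h : G) ((h : G) ^ n)) (R : Type v) [CommRing R] [IsDomain R] :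
    Good R h := by
  have hsub : ∀ n : ℕ, 2 ≤ n → ¬ IsConj h (h ^ n) := by
    intro n hn hcon
    apply hc n hn
    obtain ⟨c, hc⟩ := isConj_iff.1 hcon
    exact isConj_iff.2 ⟨c, by simpa using congrArg Subtype.val hc⟩
  by_cases hu : ∃ p : ℕ, p.Prime ∧ ¬ IsUnit (p : R)
  · obtain ⟨p, hp, hpR⟩ := hu
    refine Or.inr (Or.inl ⟨p, hp, hpR, fun j hj hcon => ?_⟩)
    exact hsub (p ^ j) (hp.two_le.trans (Nat.le_self_pow (by omega) p)) hcon
  · push Not at hu
    have hchar : CharZero R := by
      obtain ⟨q, hq⟩ := CharP.exists R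
      rcases CharP.char_is_prime_or_zero R q with h | h
      · exfalso
        have h2 := hu q h
        rw [CharP.cast_eq_zero R q] at h2
        exact not_isUnit_zero h2
      · subst h
        exact CharP.charP_to_charZero R
    refine Or.inr (Or.inr ⟨hchar, ?_⟩)
    rintro ⟨m, J, hm, hJ, hdiv⟩
    refine hsub ((m + 1) ^ J) ?_ (hdiv (m + 1) (by simp))
    exact (show 2 ≤ m + 1 by omega).trans (Nat.le_self_pow (by omega) _)

/-- **the rank vanishes at all elements whose powers act nontrivially** -/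
theorem tau_zero {G : Type u} [Group G] {Ω : Type w} [MulAction G Ω] (hG : SubexpOrbits G Ω)
    {R : Type v} [CommRing R] [IsDomain R] {n : ℕ} (A : Matrix (Fin n) (Fin n) (MonoidAlgebra R G))
    (hA : A * A = A) (g : G) (hg : ∀ m : ℕ, 0 < m → ∃ ξ : Ω, g ^ m • ξ ≠ ξ) : tau A g = 0 := by
  rw [tau_eq]
  by_contra hne
  obtain ⟨H, hH, B, hB, h, hconj, hne'⟩ := exists_local A hA g hne
  apply hne'
  apply tf_zero_of_good B hB h
  apply good_of_not_conj
  intro k hk hcon
  refine not_conj hG (g := (h : G)) ?_ hk hcon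
  intro m hm
  obtain ⟨ξ, hξ⟩ := hg m hm
  obtain ⟨c, hc⟩ := isConj_iff.1 hconj.symm
  refine ⟨c • ξ, fun he => hξ ?_⟩
  rw [← hc, conj_pow, mul_smul, inv_smul_smul, mul_smul] at he
  exact smul_left_cancel c he

/-- elements of finite order -/
theorem tau_zero_fin {G : Type u} [Group G] {R : Type v} [CommRing R] [IsDomain R] {n : ℕ}
    (A : Matrix (Fin n) (Fin n) (MonoidAlgebra R G)) (hA : A * A = A) (g : G)
    (hfin : orderOf g ≠ 0) (hg : ¬ IsUnit ((orderOf g : ℕ) : R)) : tau A g = 0 := by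
  rw [tau_eq]
  exact tf_zero_of_finite A hA g hfin hg

end Pool.Agent.X265.Sub
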