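import Mathlib

/-!
# Actions with orbits of subexponential growth and conjugate powers
-/

set_option autoImplicit false

namespace Pool.Agent.X265.Sub

open Pointwise

universe u v w

section

variable {G : Type u} [Group G] {Ω : Type v} [MulAction G Ω]

/-- the points that are reached from `ξ` by products of `r` elements of `S` -/
def orb (S : Set G) (r : ℕ) (ξ : Ω) : Set Ω := {η | ∃ g ∈ S ^ r, g • ξ = η}

theorem pow_subset {S : Set G} (h1 : (1 : G) ∈ S) {m n : ℕ} (h : m ≤ n) : S ^ m ⊆ S ^ n :=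
  Set.pow_subset_pow_right h1 h

/-- powers with small length -/
theorem short_pow {g x : G} {n : ℕ} (hn : 2 ≤ n) (hx : x * g * x⁻¹ = g ^ n) {S : Set G}
    (h1 : (1 : G) ∈ S) (hg : g ∈ S) (hxS : x ∈ S) (k : ℕ) :
    ∀ i < n ^ k, g ^ i * x ^ k ∈ S ^ (n * k) := by
  induction k with
  | zero =>
    intro i hi
    rw [pow_zero] at hi
    have : i = 0 := by omega
    subst this
    simp
  | succ k ih =>
    intro i hi
    have hq : i / n < n ^ k := by
      rw [Nat.div_lt_iff_lt_mul (by omega)]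
      rwa [pow_succ] at hi
    have hd : i % n < n := Nat.mod_lt _ (by omega)
    have e : g ^ i * x ^ (k + 1) = g ^ (i % n) * (x * (g ^ (i / n) * x ^ k)) := by
      have e1 : g ^ i = g ^ (i % n) * (g ^ n) ^ (i / n) := by
        rw [← pow_mul, ← pow_add, Nat.mod_add_div]
      have e2 : (g ^ n) ^ (i / n) = x * g ^ (i / n) * x⁻¹ := by
        rw [← hx, conj_pow]
      rw [e1, e2, pow_succ']
      group
    rw [e]
    have h2 : g ^ (i % n) ∈ S ^ (n - 1) :=
      pow_subset h1 (by omega) (Set.pow_mem_pow hg)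
    have h3 : S ^ (n * (k + 1)) = S ^ (n - 1) * (S * S ^ (n * k)) := by
      rw [← pow_succ', ← pow_add]
      congr 1
      have : n * (k + 1) = n * k + n := by ring
      omega
    rw [h3]
    exact Set.mul_mem_mul h2 (Set.mul_mem_mul hxS (ih _ hq))

/-- long orbits -/
theorem exists_long {g : G} (hg : ∀ m : ℕ, 0 < m → ∃ ξ : Ω, g ^ m • ξ ≠ ξ) (N : ℕ) :
    ∃ ξ : Ω, ∀ i : ℕ, 0 < i → i < N → g ^ i • ξ ≠ ξ := by
  by_contra hcon
  push Not at hcon
  obtain ⟨ξ, hξ⟩ := hg (N.factorial) (Nat.factorial_pos N)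
  apply hξ
  obtain ⟨i, hi, hiN, h⟩ := hcon ξ
  obtain ⟨c, hc⟩ := Nat.dvd_factorial hi hiN.le
  rw [hc, pow_mul]
  induction c with
  | zero => rw [pow_zero, one_smul]
  | succ c ihc =>
    have : ∀ c : ℕ, (g ^ i) ^ c • ξ = ξ := by
      intro c
      induction c with
      | zero => rw [pow_zero, one_smul]
      | succ c ih => rw [pow_succ, mul_smul, h, ih]
    exact this _

/-- many points in the orbit -/
theorem many_points {g x : G} {n : ℕ} (hn : 2 ≤ n) (hx : x * g * x⁻¹ = g ^ n) {S : Set G}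
    (hS : S.Finite) (h1 : (1 : G) ∈ S) (hg : g ∈ S) (hxS : x ∈ S)
    (hinf : ∀ m : ℕ, 0 < m → ∃ ξ : Ω, g ^ m • ξ ≠ ξ) (k : ℕ) :
    ∃ ξ : Ω, n ^ k ≤ (orb S (n * k) ξ).ncard := by
  obtain ⟨η, hη⟩ := exists_long hinf (n ^ k)
  refine ⟨(x ^ k)⁻¹ • η, ?_⟩
  have hfin : (orb S (n * k) ((x ^ k)⁻¹ • η)).Finite := by
    have : orb S (n * k) ((x ^ k)⁻¹ • η) = (fun g => g • ((x ^ k)⁻¹ • η)) '' (S ^ (n * k)) := rfl
    rw [this]
    refine Set.Finite.image _ ?_
    generalize n * k = m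
    induction m with
    | zero => rw [pow_zero]; exact Set.finite_one
    | succ m ih => rw [pow_succ]; exact ih.mul hS
  have hinj : Set.InjOn (fun i : ℕ => g ^ i • η) (Finset.range (n ^ k) : Set ℕ) := by
    intro i hi j hj hij
    have hi' : i < n ^ k := Finset.mem_range.1 hi
    have hj' : j < n ^ k := Finset.mem_range.1 hj
    have key : ∀ i j : ℕ, i < j → j < n ^ k → g ^ i • η = g ^ j • η → False := by
      intro i j hlt hj h
      apply hη (j - i) (by omega) (by omega)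
      have e : g ^ j = g ^ i * g ^ (j - i) := by rw [← pow_add]; congr 1; omega
      rw [e, mul_smul] at h
      exact (smul_left_cancel _ h).symm
    rcases lt_trichotomy i j with h | h | h
    · exact (key i j h hj' hij).elim
    · exact h
    · exact (key j i h hi' hij.symm).elim
  have hsub : (fun i : ℕ => g ^ i • η) '' (Finset.range (n ^ k) : Set ℕ) ⊆
      orb S (n * k) ((x ^ k)⁻¹ • η) := by
    rintro _ ⟨i, hi, rfl⟩
    refine ⟨g ^ i * x ^ k, short_pow hn hx h1 hg hxS k i (Finset.mem_range.1 hi), ?_⟩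
    rw [mul_smul, smul_inv_smul]
  have h2 := Set.ncard_le_ncard hsub hfin
  rw [Set.InjOn.ncard_image hinj, Set.ncard_coe_finset, Finset.card_range] at h2
  exact h2

end

/-- The orbits of the action of `G` on `Ω` grow subexponentially, uniformly in the points and locally in
`G`: for every finite subset `S` of `G` and every real number `a > 1`, for all sufficiently large `r` no
more than `a ^ r` points are reached from any point by products of `r` elements of `S`. -/
def SubexpOrbits (G : Type u) [Group G] (Ω : Type v) [MulAction G Ω] : Prop :=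
  ∀ S : Set G, S.Finite → ∀ a : ℝ, 1 < a → ∃ r₀ : ℕ, ∀ r : ℕ, r₀ ≤ r → ∀ ξ : Ω,
    ((orb S r ξ).ncard : ℝ) ≤ a ^ r

/-- **no conjugate powers** -/
theorem not_conj {G : Type u} [Group G] {Ω : Type v} [MulAction G Ω] (h : SubexpOrbits G Ω) {g : G}
    (hinf : ∀ m : ℕ, 0 < m → ∃ ξ : Ω, g ^ m • ξ ≠ ξ) {n : ℕ} (hn : 2 ≤ n) :
    ¬ IsConj g (g ^ n) := by
  intro hc
  obtain ⟨x, hx⟩ := isConj_iff.1 hc
  have hn0 : (0 : ℝ) < n := by exact_mod_cast (by omega : 0 < n)
  obtain ⟨r₀, hr⟩ := h {1, g, x} (by simp) (1 + 1 / (2 * n)) (by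
    have : (0 : ℝ) < 1 / (2 * n) := by positivity
    linarith)
  obtain ⟨ξ, hξ⟩ := many_points (Ω := Ω) hn hx (S := {1, g, x}) (by simp) (by simp) (by simp) (by simp)
    hinf (r₀ + 1)
  have h1 := hr (n * (r₀ + 1)) (by nlinarith) ξ
  have h2 : ((n : ℝ)) ^ (r₀ + 1) ≤ (1 + 1 / (2 * n)) ^ (n * (r₀ + 1)) := by
    refine le_trans ?_ h1
    exact_mod_cast hξ
  rw [pow_mul] at h2
  have h3 : (1 + 1 / (2 * (n : ℝ))) ^ n < 2 := by
    have h4 : (1 + 1 / (2 * (n : ℝ))) ^ n ≤ Real.exp (1 / 2) := by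
      have h5 : 1 + 1 / (2 * (n : ℝ)) ≤ Real.exp (1 / (2 * n)) := by
        have := Real.add_one_le_exp (1 / (2 * (n : ℝ)))
        linarith
      calc (1 + 1 / (2 * (n : ℝ))) ^ n ≤ (Real.exp (1 / (2 * n))) ^ n :=
            pow_le_pow_left₀ (by positivity) h5 n
        _ = Real.exp (1 / 2) := by
          rw [← Real.exp_nat_mul]
          congr 1
          field_simp
    have h6 : Real.exp (1 / 2) ^ 2 < 4 := by
      rw [← Real.exp_nat_mul]
      have h7 := Real.exp_one_lt_d9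
      have h8 : ((2 : ℕ) : ℝ) * (1 / 2) = 1 := by norm_num
      rw [h8]
      linarith
    have h9 : Real.exp (1 / 2) < 2 := by
      have := Real.exp_pos (1 / 2)
      nlinarith
    linarith
  have h4 : ((1 + 1 / (2 * (n : ℝ))) ^ n) ^ (r₀ + 1) < (n : ℝ) ^ (r₀ + 1) := by
    apply pow_lt_pow_left₀ _ (by positivity) (Nat.succ_ne_zero _)
    have : (2 : ℝ) ≤ n := by exact_mod_cast hn
    linarith
  linarith

end Pool.Agent.X265.Sub
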